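import Pool.Agent.Y705.SQ.Norm

set_option autoImplicit false
set_option linter.all false

/-!
# Superelliptic curves: the coordinate ring is a Dedekind domain
-/

open Polynomial
open Pool.Agent.Y160.SQ

namespace Pool.Agent.Y705.SQ

universe u

section ufd

variable {A : Type u} [CommRing A] [IsDomain A] [UniqueFactorizationMonoid A]

theorem not_prime_pow_dvd {f p : A} (hf : Squarefree f) (hp : Prime p) {i ℓ : ℕ} (hi : i < ℓ) :
    ¬ p ^ ℓ ∣ f ^ i := by
  intro h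
  have h0 : p ∣ f ^ i := dvd_trans (dvd_pow_self p (by omega)) h
  obtain ⟨g, hg⟩ := hp.dvd_of_dvd_pow h0
  have hpg : ¬ p ∣ g := by
    rintro ⟨k, hk⟩
    exact hp.not_unit (hf p ⟨k, by rw [hg, hk, mul_assoc]⟩)
  rw [hg, mul_pow, show ℓ = i + (ℓ - i) by omega, pow_add] at h
  have h1 := (mul_dvd_mul_iff_left (pow_ne_zero i hp.ne_zero)).1 h
  exact hpg (hp.dvd_of_dvd_pow (dvd_trans (dvd_pow_self p (by omega)) h1))

theorem dvd_of_pow_dvd {f : A} (hf : Squarefree f) {i ℓ : ℕ} (hi : i < ℓ) (q : A) (hq : q ≠ 0) :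
    ∀ h : A, q ^ ℓ ∣ h ^ ℓ * f ^ i → q ∣ h := by
  induction q using UniqueFactorizationMonoid.induction_on_prime with
  | h₁ => exact absurd rfl hq
  | h₂ x hx => exact fun h _ => hx.dvd
  | h₃ a p ha hp ih =>
    intro h hd
    have h1 : p ∣ h := by
      by_contra hph
      have h2 : p ^ ℓ ∣ h ^ ℓ * f ^ i := dvd_trans (pow_dvd_pow_of_dvd (dvd_mul_right p a) ℓ) hd
      have h3 : p ^ ℓ ∣ f ^ i := by
        apply hp.pow_dvd_of_dvd_mul_left ℓ _ h2
        intro h4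
        exact hph (hp.dvd_of_dvd_pow h4)
      exact not_prime_pow_dvd hf hp hi h3
    obtain ⟨k, rfl⟩ := h1
    rw [mul_pow, mul_pow, mul_assoc] at hd
    have h2 := (mul_dvd_mul_iff_left (pow_ne_zero ℓ hp.ne_zero)).1 hd
    exact mul_dvd_mul_left p (ih ha k h2)

end ufd

variable {ℓ : ℕ} {E : Type u} [Field E] {f : E[X]} {ζ : E}

/-- the components of an element as averages of its twists -/
theorem average (hg : Good ℓ ζ f) (a : CR ℓ f) {i : ℕ} (hi : i < ℓ) :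
    ∑ j ∈ Finset.range ℓ, xp ℓ f (C ((ζ⁻¹) ^ (i * j))) * (hg.tw ^ j) a =
      xp ℓ f (C (ℓ : E)) * (xp ℓ f ((rd hg.ne a).coeff i) * yy ℓ f ^ i) := by
  have hℓ := hg.ne
  have hζ : ζ ≠ 0 := hg.root.ne_zero hℓ
  apply rd_inj hℓ
  have h1 : rd hℓ (∑ j ∈ Finset.range ℓ, xp ℓ f (C ((ζ⁻¹) ^ (i * j))) * (hg.tw ^ j) a) =
      ∑ j ∈ Finset.range ℓ, C (C ((ζ⁻¹) ^ (i * j))) * rd hℓ ((hg.tw ^ j) a) := by
    unfold rd
    rw [map_sum]
    exact Finset.sum_congr rfl fun j _ => rd_xp_mul hℓ _ _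
  have h2 : rd hℓ (xp ℓ f (C (ℓ : E)) * (xp ℓ f ((rd hℓ a).coeff i) * yy ℓ f ^ i)) =
      C (C (ℓ : E)) * (C ((rd hℓ a).coeff i) * X ^ i) := by
    rw [rd_xp_mul, rd_xp_mul]
    have h3 := rd_mono (f := f) hℓ hi 0
    rw [pow_zero, xp_one, one_mul, C_1, one_mul] at h3
    rw [h3]
  rw [h1, h2]
  ext1 k
  rw [finset_sum_coeff, coeff_C_mul, coeff_C_mul_X_pow]
  have h3 : ∀ j ∈ Finset.range ℓ, (C (C ((ζ⁻¹) ^ (i * j))) * rd hℓ ((hg.tw ^ j) a)).coeff k =
      (rd hℓ a).coeff k * C ((ζ ^ k * (ζ⁻¹) ^ i) ^ j) := by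
    intro j _
    rw [coeff_C_mul, good_tw_pow hg j (pow_pow_one hg j), rd_tw, ← C_pow, mul_left_comm, ← C_mul]
    congr 2
    rw [mul_pow, ← pow_mul, ← pow_mul, ← pow_mul, mul_comm k j, mul_comm]
  rw [Finset.sum_congr rfl h3, ← Finset.mul_sum, ← map_sum]
  by_cases hk : k < ℓ
  · by_cases hki : k = i
    · subst hki
      rw [if_pos rfl, ← mul_pow, mul_inv_cancel₀ hζ, one_pow]
      simp only [one_pow, Finset.sum_const, Finset.card_range, nsmul_eq_mul, mul_one]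
      rw [mul_comm]
    · rw [if_neg hki, mul_zero]
      have h4 : ζ ^ k * (ζ⁻¹) ^ i ≠ 1 := by
        intro h
        apply hki
        apply hg.root.pow_inj hk hi
        rw [inv_pow] at h
        have h5 := congrArg (fun z => z * ζ ^ i) h
        simpa [mul_assoc, inv_mul_cancel₀ (pow_ne_zero i hζ)] using h5
      have h5 : (ζ ^ k * (ζ⁻¹) ^ i) ^ ℓ = 1 := by
        rw [mul_pow, pow_pow_one hg k, inv_pow, inv_pow, pow_pow_one hg i, inv_one, mul_one]
      have h6 : ∑ j ∈ Finset.range ℓ, (ζ ^ k * (ζ⁻¹) ^ i) ^ j = 0 := by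
        have h7 := mul_neg_geom_sum (ζ ^ k * (ζ⁻¹) ^ i) ℓ
        rw [h5, sub_self] at h7
        rcases mul_eq_zero.1 h7 with h8 | h8
        · exact absurd (sub_eq_zero.1 h8).symm h4
        · exact h8
      rw [h6, C_0, mul_zero]
  · rw [rd_big hℓ a (not_lt.1 hk), zero_mul, if_neg (by omega), mul_zero]

/-- the coordinate ring is integrally closed -/
theorem isIC (hg : Good ℓ ζ f) : IsIntegrallyClosed (CR ℓ f) := by
  have hℓ := hg.ne
  have hdom : IsDomain (CR ℓ f) := isDom hℓ hg.monic hg.cop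
  have hfin : Module.Finite E[X] (CR ℓ f) := (monic_cr (f := f) hℓ).finite_adjoinRoot
  have hint : Algebra.IsIntegral E[X] (CR ℓ f) := Algebra.IsIntegral.of_finite E[X] (CR ℓ f)
  have hℓE : (ℓ : E) ≠ 0 := by
    have : NeZero ℓ := ⟨hℓ⟩
    exact (hg.root.neZero').ne
  have hxi : Function.Injective (algebraMap E[X] (CR ℓ f)) := xp_inj hℓ
  set F := FractionRing (CR ℓ f) with hF
  set ψ : CR ℓ f →+* F := algebraMap (CR ℓ f) F with hψ
  have hψi : Function.Injective ψ := IsFractionRing.injective (CR ℓ f) F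
  have hmap : algebraMap E[X] F = ψ.comp (algebraMap E[X] (CR ℓ f)) :=
    IsScalarTower.algebraMap_eq E[X] (CR ℓ f) F
  have hmap' : ∀ p, algebraMap E[X] F p = ψ (xp ℓ f p) := fun p => by rw [hmap]; rfl
  rw [isIntegrallyClosed_iff F]
  intro z hz
  have hz' : IsIntegral E[X] z := isIntegral_trans z hz
  -- z = r / q
  obtain ⟨r, q, hq, hzr⟩ : ∃ (r : CR ℓ f) (q : E[X]), q ≠ 0 ∧ z * ψ (xp ℓ f q) = ψ r := by
    obtain ⟨a, b, hb, hab⟩ := IsFractionRing.div_surjective (A := CR ℓ f) z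
    have hb0 : b ≠ 0 := nonZeroDivisors.ne_zero hb
    refine ⟨a * ∏ i ∈ Finset.Ico 1 ℓ, (hg.tw ^ i) b, Algebra.norm E[X] b, norm_ne hg hb0, ?_⟩
    have h1 : xp ℓ f (Algebra.norm E[X] b) = b * ∏ i ∈ Finset.Ico 1 ℓ, (hg.tw ^ i) b := by
      rw [norm_eq hg, Finset.range_eq_Ico, Finset.prod_eq_prod_Ico_succ_bot hg.pos]
      simp
    rw [h1, map_mul, map_mul, ← hab]
    have hb1 : ψ b ≠ 0 := by
      intro h
      exact hb0 (hψi (by rw [h, map_zero]))
    rw [← mul_assoc, div_mul_cancel₀ _ hb1]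
  have hq1 : ψ (xp ℓ f q) ≠ 0 := by
    intro h
    have h1 : xp ℓ f q = xp ℓ f 0 := by
      rw [xp_zero]
      exact hψi (by rw [h, map_zero])
    exact hq (xp_inj hℓ h1)
  have hz0 : z = ψ r / ψ (xp ℓ f q) := by rw [← hzr, mul_div_cancel_right₀ _ hq1]
  -- the twists
  have htw : ∀ j : ℕ, IsIntegral E[X] (ψ ((hg.tw ^ j) r) / ψ (xp ℓ f q)) := by
    intro j
    set σ : F →+* F := IsFractionRing.map (good_tw_inj hg j) with hσ
    have hσa : ∀ a, σ (ψ a) = ψ ((hg.tw ^ j) a) := fun a =>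
      IsLocalization.map_eq _ a
    have h1 := IsIntegral.map_of_comp_eq (RingHom.id E[X]) σ (by
      apply RingHom.ext
      intro p
      show algebraMap E[X] F p = σ (algebraMap E[X] F p)
      rw [hmap', hσa, good_tw_xp]) hz'
    rw [hz0, map_div₀, hσa, hσa, good_tw_xp] at h1
    exact h1
  -- the components
  have hcomp : ∀ i, i < ℓ → q ∣ (rd hℓ r).coeff i := by
    intro i hi
    set h := (rd hℓ r).coeff i with hh
    have h1 : IsIntegral E[X] (ψ (xp ℓ f h * yy ℓ f ^ i) / ψ (xp ℓ f q)) := by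
      have h2 : ψ (xp ℓ f h * yy ℓ f ^ i) / ψ (xp ℓ f q) = ∑ j ∈ Finset.range ℓ,
          algebraMap E[X] F (C ((ℓ : E)⁻¹ * (ζ⁻¹) ^ (i * j))) *
            (ψ ((hg.tw ^ j) r) / ψ (xp ℓ f q)) := by
        have h3 := congrArg (fun a => ψ (xp ℓ f (C (ℓ : E)⁻¹)) * ψ a / ψ (xp ℓ f q))
          (average hg r hi)
        have h4 : ψ (xp ℓ f (C (ℓ : E)⁻¹)) * ψ (xp ℓ f (C (ℓ : E)) *
            (xp ℓ f h * yy ℓ f ^ i)) = ψ (xp ℓ f h * yy ℓ f ^ i) := by
          rw [← map_mul, ← mul_assoc, ← xp_mul, ← C_mul, inv_mul_cancel₀ hℓE, C_1, xp_one, one_mul]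
        rw [h4] at h3
        rw [← h3, map_sum, Finset.mul_sum, Finset.sum_div]
        refine Finset.sum_congr rfl fun j _ => ?_
        rw [hmap', C_mul, xp_mul, map_mul, map_mul]
        ring
      rw [h2]
      exact IsIntegral.sum _ fun j _ => (isIntegral_algebraMap).mul (htw j)
    have h2 := h1.pow ℓ
    rw [div_pow, ← map_pow, ← map_pow, mul_pow, ← pow_mul, mul_comm i ℓ, pow_mul, yy_pow, ← xp_pow,
      ← xp_pow, ← xp_pow, ← xp_mul] at h2
    -- descend to the fraction field of `E[X]`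
    set K := FractionRing E[X] with hK
    set κ : K →+* F := IsFractionRing.map hxi with hκ
    have hκa : ∀ p, κ (algebraMap E[X] K p) = ψ (xp ℓ f p) := fun p =>
      IsLocalization.map_eq _ p
    have h3 : IsIntegral E[X] (algebraMap E[X] K (h ^ ℓ * f ^ i) / algebraMap E[X] K (q ^ ℓ)) := by
      obtain ⟨P, hP, hP0⟩ := h2
      refine ⟨P, hP, ?_⟩
      apply κ.injective
      rw [map_zero, hom_eval₂, map_div₀, hκa, hκa]
      have h4 : κ.comp (algebraMap E[X] K) = algebraMap E[X] F := by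
        apply RingHom.ext
        intro p
        rw [RingHom.comp_apply, hκa, hmap']
      rw [h4]
      exact hP0
    rw [IsIntegrallyClosed.isIntegral_iff] at h3
    obtain ⟨y, hy⟩ := h3
    have hqK : algebraMap E[X] K (q ^ ℓ) ≠ 0 := by
      intro h
      exact pow_ne_zero ℓ hq (IsFractionRing.injective E[X] K (by rw [h, map_zero]))
    have h4 : h ^ ℓ * f ^ i = y * q ^ ℓ := by
      apply IsFractionRing.injective E[X] K
      rw [map_mul _ y, hy, div_mul_cancel₀ _ hqK]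
    exact dvd_of_pow_dvd hg.sep.squarefree hi q hq h ⟨y, by rw [h4, mul_comm]⟩
  have hdvd : ∃ s : CR ℓ f, r = xp ℓ f q * s := by
    choose! g hgq using hcomp
    refine ⟨∑ i ∈ Finset.range ℓ, xp ℓ f (g i) * yy ℓ f ^ i, ?_⟩
    have hdeg : (rd hℓ r).natDegree < ℓ := by
      by_contra h
      have h0 : rd hℓ r ≠ 0 := by
        intro h0
        rw [h0, natDegree_zero] at h
        omega
      have h1 := rd_big hℓ r (not_lt.1 h)
      rw [coeff_natDegree, leadingCoeff_eq_zero] at h1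
      exact h0 h1
    conv_lhs => rw [← mk_rd hℓ r, as_sum_range' _ _ hdeg, map_sum]
    rw [Finset.mul_sum]
    refine Finset.sum_congr rfl fun i hi => ?_
    rw [← C_mul_X_pow_eq_monomial, map_mul, map_pow, hgq i (Finset.mem_range.1 hi)]
    show xp ℓ f (q * g i) * yy ℓ f ^ i = _
    rw [xp_mul, mul_assoc]
  obtain ⟨s, hs⟩ := hdvd
  refine ⟨s, ?_⟩
  show ψ s = z
  rw [hz0, hs, map_mul, mul_div_cancel_left₀ _ hq1]

/-- StRing -/
theorem stRing : StRing := by
  intro ℓ E _ ζ f hg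
  have hℓ := hg.ne
  have hdom : IsDomain (CR ℓ f) := isDom hℓ hg.monic hg.cop
  have hfin : Module.Finite E[X] (CR ℓ f) := (monic_cr (f := f) hℓ).finite_adjoinRoot
  have hint : Algebra.IsIntegral E[X] (CR ℓ f) := Algebra.IsIntegral.of_finite E[X] (CR ℓ f)
  have hnoeth : IsNoetherianRing (CR ℓ f) := IsNoetherianRing.of_finite E[X] (CR ℓ f)
  have hdim : Ring.DimensionLEOne (CR ℓ f) := Ring.DimensionLEOne.of_isIntegral E[X] (CR ℓ f)
  have hic : IsIntegrallyClosed (CR ℓ f) := isIC hg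
  have h1 : IsDedekindRing (CR ℓ f) := { hnoeth, hdim, hic with }
  exact { hdom, h1 with }

end Pool.Agent.Y705.SQ
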