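import Pool.Agent.Y160.SQ.Stmts
import Pool.Agent.Y160.SQ.Basic

set_option autoImplicit false
set_option linter.all false

/-!
# Superelliptic curves: the weighted degree
-/

open Polynomial
open Pool.Agent.Y160.SQ

namespace Pool.Agent.Y705.SQ

universe u

variable {ℓ : ℕ} {E : Type u} [Field E] {f : E[X]}

/-- the reduced representative -/
noncomputable def rd (hℓ : ℓ ≠ 0) (a : CR ℓ f) : E[X][X] :=
  AdjoinRoot.modByMonicHom (monic_cr (f := f) hℓ) a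

theorem mk_rd (hℓ : ℓ ≠ 0) (a : CR ℓ f) : AdjoinRoot.mk (X ^ ℓ - C f : E[X][X]) (rd hℓ a) = a :=
  AdjoinRoot.mk_leftInverse (monic_cr (f := f) hℓ) a

theorem rd_mk (hℓ : ℓ ≠ 0) {p : E[X][X]} (hp : ∀ i, ℓ ≤ i → p.coeff i = 0) :
    rd hℓ (AdjoinRoot.mk (X ^ ℓ - C f : E[X][X]) p) = p := by
  unfold rd
  rw [AdjoinRoot.modByMonicHom_mk, modByMonic_eq_self_iff (monic_cr (f := f) hℓ),
    degree_X_pow_sub_C (Nat.pos_of_ne_zero hℓ), degree_lt_iff_coeff_zero]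
  exact hp

theorem rd_big (hℓ : ℓ ≠ 0) (a : CR ℓ f) {i : ℕ} (hi : ℓ ≤ i) : (rd hℓ a).coeff i = 0 := by
  have h : (rd hℓ a).degree < (ℓ : WithBot ℕ) := by
    obtain ⟨p, rfl⟩ := cr_mem a
    unfold rd
    rw [AdjoinRoot.modByMonicHom_mk]
    have h1 := degree_modByMonic_lt p (monic_cr (f := f) hℓ)
    rwa [degree_X_pow_sub_C (Nat.pos_of_ne_zero hℓ)] at h1
  exact (degree_lt_iff_coeff_zero _ _).1 h i hi

theorem rd_add (hℓ : ℓ ≠ 0) (a b : CR ℓ f) : rd hℓ (a + b) = rd hℓ a + rd hℓ b :=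
  map_add _ a b

theorem rd_sub (hℓ : ℓ ≠ 0) (a b : CR ℓ f) : rd hℓ (a - b) = rd hℓ a - rd hℓ b :=
  map_sub _ a b

theorem rd_zero (hℓ : ℓ ≠ 0) : rd hℓ (0 : CR ℓ f) = 0 := map_zero _

theorem rd_inj (hℓ : ℓ ≠ 0) {a b : CR ℓ f} (h : rd hℓ a = rd hℓ b) : a = b := by
  rw [← mk_rd hℓ a, h, mk_rd]

theorem rd_xp_mul (hℓ : ℓ ≠ 0) (p : E[X]) (a : CR ℓ f) :
    rd hℓ (xp ℓ f p * a) = C p * rd hℓ a := by
  have h : xp ℓ f p * a = AdjoinRoot.mk (X ^ ℓ - C f : E[X][X]) (C p * rd hℓ a) := by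
    rw [map_mul, mk_rd]
    rfl
  rw [h]
  apply rd_mk
  intro i hi
  rw [coeff_C_mul, rd_big hℓ a hi, mul_zero]

theorem rd_xp (hℓ : ℓ ≠ 0) (p : E[X]) : rd hℓ (xp ℓ f p) = C p := by
  apply rd_mk
  intro i hi
  rw [coeff_C, if_neg (by omega)]

theorem rd_one (hℓ : ℓ ≠ 0) : rd hℓ (1 : CR ℓ f) = 1 := by
  have h := rd_xp (f := f) hℓ 1
  rwa [xp_one, C_1] at h

theorem rd_yy_mul (hℓ : ℓ ≠ 0) (a : CR ℓ f) :
    rd hℓ (yy ℓ f * a) = X * rd hℓ a - C ((rd hℓ a).coeff (ℓ - 1)) * (X ^ ℓ - C f) := by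
  have h : yy ℓ f * a = AdjoinRoot.mk (X ^ ℓ - C f : E[X][X])
      (X * rd hℓ a - C ((rd hℓ a).coeff (ℓ - 1)) * (X ^ ℓ - C f)) := by
    rw [map_sub, map_mul, map_mul, AdjoinRoot.mk_self, mul_zero, sub_zero, mk_rd]
    rfl
  rw [h]
  apply rd_mk
  intro i hi
  obtain ⟨j, rfl⟩ : ∃ j, i = j + 1 := ⟨i - 1, by omega⟩
  rw [coeff_sub, coeff_X_mul, coeff_C_mul, coeff_sub, coeff_X_pow, coeff_C, if_neg (by omega :
    ¬ j + 1 = 0), sub_zero]
  by_cases hj : j + 1 = ℓ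
  · have e : ℓ - 1 = j := by omega
    rw [if_pos hj, mul_one, e, sub_self]
  · rw [if_neg hj, mul_zero, sub_zero, rd_big hℓ a (by omega)]

/-- `x ↦ T ^ ℓ`, `y ↦ T ^ n` -/
noncomputable def Psi (ℓ n : ℕ) : E[X][X] →+* E[X] :=
  eval₂RingHom ((expand E ℓ : E[X] →ₐ[E] E[X]) : E[X] →+* E[X]) (X ^ n)

/-- the image of the reduced representative -/
noncomputable def PP (hℓ : ℓ ≠ 0) (a : CR ℓ f) : E[X] := Psi ℓ f.natDegree (rd hℓ a)

theorem Psi_C (n : ℕ) (p : E[X]) : Psi ℓ n (C p) = expand E ℓ p := by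
  unfold Psi
  rw [coe_eval₂RingHom, eval₂_C]
  rfl

theorem Psi_X (n : ℕ) : Psi ℓ n (X : E[X][X]) = X ^ n := by
  unfold Psi
  rw [coe_eval₂RingHom, eval₂_X]

theorem PP_add (hℓ : ℓ ≠ 0) (a b : CR ℓ f) : PP hℓ (a + b) = PP hℓ a + PP hℓ b := by
  unfold PP
  rw [rd_add, map_add]

theorem PP_sub (hℓ : ℓ ≠ 0) (a b : CR ℓ f) : PP hℓ (a - b) = PP hℓ a - PP hℓ b := by
  unfold PP
  rw [rd_sub, map_sub]

theorem PP_zero (hℓ : ℓ ≠ 0) : PP hℓ (0 : CR ℓ f) = 0 := by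
  unfold PP
  rw [rd_zero, map_zero]

theorem PP_sum (hℓ : ℓ ≠ 0) {ι : Type} (s : Finset ι) (a : ι → CR ℓ f) :
    PP hℓ (∑ i ∈ s, a i) = ∑ i ∈ s, PP hℓ (a i) := by
  classical
  induction s using Finset.induction_on with
  | empty => simp [PP_zero]
  | insert i s hi ih => rw [Finset.sum_insert hi, Finset.sum_insert hi, PP_add, ih]

theorem PP_xp_mul (hℓ : ℓ ≠ 0) (p : E[X]) (a : CR ℓ f) :
    PP hℓ (xp ℓ f p * a) = expand E ℓ p * PP hℓ a := by
  unfold PP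
  rw [rd_xp_mul, map_mul, Psi_C]

theorem PP_xp (hℓ : ℓ ≠ 0) (p : E[X]) : PP hℓ (xp ℓ f p) = expand E ℓ p := by
  unfold PP
  rw [rd_xp, Psi_C]

theorem PP_one (hℓ : ℓ ≠ 0) : PP hℓ (1 : CR ℓ f) = 1 := by
  rw [← xp_one, PP_xp, map_one]

theorem PP_yy_mul (hℓ : ℓ ≠ 0) (a : CR ℓ f) :
    PP hℓ (yy ℓ f * a) = X ^ f.natDegree * PP hℓ a +
      expand E ℓ ((rd hℓ a).coeff (ℓ - 1) * (f - X ^ f.natDegree)) := by
  unfold PP
  rw [rd_yy_mul, map_sub, map_mul, map_mul, map_sub, map_pow, Psi_C, Psi_C, Psi_X, map_mul, map_sub,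
    map_pow, expand_X, ← pow_mul, ← pow_mul, mul_comm f.natDegree ℓ]
  ring

theorem PP_eq_sum (hℓ : ℓ ≠ 0) (a : CR ℓ f) : PP hℓ a =
    ∑ i ∈ Finset.range ℓ, expand E ℓ ((rd hℓ a).coeff i) * X ^ (f.natDegree * i) := by
  unfold PP Psi
  rw [coe_eval₂RingHom]
  have h : (rd hℓ a).natDegree < ℓ := by
    by_contra h
    have h0 : rd hℓ a ≠ 0 := by
      intro h0
      rw [h0, natDegree_zero] at h
      omega
    have h1 := rd_big hℓ a (not_lt.1 h)
    rw [coeff_natDegree, leadingCoeff_eq_zero] at h1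
    exact h0 h1
  rw [eval₂_eq_sum_range' _ h]
  refine Finset.sum_congr rfl fun i _ => ?_
  rw [← pow_mul]
  rfl

/-- the coefficients of `PP` -/
theorem PP_coeff (hℓ : ℓ ≠ 0) (hc : ℓ.Coprime f.natDegree) (a : CR ℓ f) {i : ℕ} (hi : i < ℓ)
    (k : ℕ) : (PP hℓ a).coeff (ℓ * k + f.natDegree * i) = ((rd hℓ a).coeff i).coeff k := by
  rw [PP_eq_sum, finset_sum_coeff, Finset.sum_eq_single i]
  · rw [coeff_mul_X_pow, mul_comm ℓ k, coeff_expand_mul (Nat.pos_of_ne_zero hℓ)]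
  · intro j hj hji
    rw [Finset.mem_range] at hj
    rw [coeff_mul_X_pow']
    split_ifs with h
    · rw [coeff_expand (Nat.pos_of_ne_zero hℓ), if_neg]
      intro hd
      have h1 : (ℓ : ℤ) ∣ (f.natDegree : ℤ) * ((i : ℤ) - j) := by
        obtain ⟨c, hc'⟩ := hd
        have h2 : ((ℓ * k + f.natDegree * i - f.natDegree * j : ℕ) : ℤ) =
            ℓ * k + f.natDegree * i - f.natDegree * j := by
          push_cast [Nat.cast_sub h]
          ring
        rw [hc'] at h2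
        push_cast at h2
        exact ⟨c - k, by linear_combination -h2⟩
      have h2 : IsCoprime (ℓ : ℤ) (f.natDegree : ℤ) := Nat.isCoprime_iff_coprime.2 hc
      have h3 : (ℓ : ℤ) ∣ (i : ℤ) - j := h2.dvd_of_dvd_mul_left h1
      have h4 : (i : ℤ) - j = 0 := by
        apply Int.eq_zero_of_abs_lt_dvd h3
        rw [abs_lt]
        constructor <;> omega
      exact hji (by omega)
    · rfl
  · intro h
    exact absurd (Finset.mem_range.2 hi) h

/-- the support of `PP` -/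
theorem PP_supp (hℓ : ℓ ≠ 0) (a : CR ℓ f) {w : ℕ} (hw : (PP hℓ a).coeff w ≠ 0) :
    ∃ i k, i < ℓ ∧ w = ℓ * k + f.natDegree * i := by
  rw [PP_eq_sum, finset_sum_coeff] at hw
  obtain ⟨i, hi, h⟩ := Finset.exists_ne_zero_of_sum_ne_zero hw
  rw [coeff_mul_X_pow'] at h
  split_ifs at h with h1
  · rw [coeff_expand (Nat.pos_of_ne_zero hℓ)] at h
    split_ifs at h with h2
    · obtain ⟨k, hk⟩ := h2
      exact ⟨i, k, Finset.mem_range.1 hi, by omega⟩
    · exact absurd rfl h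
  · exact absurd rfl h

theorem PP_inj (hℓ : ℓ ≠ 0) (hc : ℓ.Coprime f.natDegree) {a b : CR ℓ f} (h : PP hℓ a = PP hℓ b) :
    a = b := by
  apply rd_inj hℓ
  ext i k
  by_cases hi : i < ℓ
  · rw [← PP_coeff hℓ hc a hi, ← PP_coeff hℓ hc b hi, h]
  · rw [rd_big hℓ a (not_lt.1 hi), rd_big hℓ b (not_lt.1 hi)]

theorem PP_eq_zero (hℓ : ℓ ≠ 0) (hc : ℓ.Coprime f.natDegree) {a : CR ℓ f} (h : PP hℓ a = 0) :
    a = 0 := PP_inj hℓ hc (by rw [h, PP_zero])

/-- multiplication by `y` -/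
theorem PP_yy_lt (hℓ : ℓ ≠ 0) (hf : f.Monic) (hc : ℓ.Coprime f.natDegree) {a : CR ℓ f} {w : ℕ}
    (ha : PP hℓ a ∈ degreeLT E (w + 1)) :
    PP hℓ (yy ℓ f * a) - X ^ f.natDegree * PP hℓ a ∈ degreeLT E (f.natDegree + w) := by
  rw [PP_yy_mul, add_sub_cancel_left]
  set h := (rd hℓ a).coeff (ℓ - 1) with hh
  set g := f - X ^ f.natDegree with hg
  by_cases h0 : h * g = 0
  · rw [h0, map_zero]
    exact Submodule.zero_mem _
  have hh0 : h ≠ 0 := left_ne_zero_of_mul h0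
  have hg0 : g ≠ 0 := right_ne_zero_of_mul h0
  have h1 : ℓ * h.natDegree + f.natDegree * (ℓ - 1) < w + 1 := by
    by_contra hcon
    have h2 := (degree_lt_iff_coeff_zero _ _).1 (mem_degreeLT.1 ha) _ (not_lt.1 hcon)
    rw [PP_coeff hℓ hc a (by omega), ← hh, coeff_natDegree, leadingCoeff_eq_zero] at h2
    exact hh0 h2
  have h2 : g.natDegree < f.natDegree := by
    have h3 : g.degree < f.degree := by
      apply degree_sub_lt
      · rw [degree_X_pow, degree_eq_natDegree hf.ne_zero]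
      · exact hf.ne_zero
      · rw [hf.leadingCoeff, leadingCoeff_X_pow]
    exact natDegree_lt_natDegree hg0 h3
  rw [mem_degreeLT]
  have h4 : expand E ℓ (h * g) ≠ 0 := (expand_ne_zero (Nat.pos_of_ne_zero hℓ)).2 h0
  rw [degree_eq_natDegree h4, natDegree_expand, natDegree_mul hh0 hg0]
  norm_cast
  obtain ⟨m, rfl⟩ : ∃ m, ℓ = m + 1 := ⟨ℓ - 1, by omega⟩
  rw [Nat.add_sub_cancel] at h1
  nlinarith

theorem degreeLT_mono' {m n : ℕ} (h : m ≤ n) {p : E[X]} (hp : p ∈ degreeLT E m) :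
    p ∈ degreeLT E n := degreeLT_mono h hp

theorem X_pow_mul_mem {m n : ℕ} {p : E[X]} (hp : p ∈ degreeLT E m) :
    X ^ n * p ∈ degreeLT E (n + m) := by
  rw [mem_degreeLT, degree_lt_iff_coeff_zero] at hp ⊢
  intro k hk
  rw [coeff_X_pow_mul']
  split_ifs with h
  · exact hp _ (by omega)
  · rfl

/-- multiplication by `x ^ k y ^ i` -/
theorem PP_mono_lt (hℓ : ℓ ≠ 0) (hf : f.Monic) (hc : ℓ.Coprime f.natDegree) {a : CR ℓ f} {w : ℕ}
    (ha : PP hℓ a ∈ degreeLT E (w + 1)) (k i : ℕ) :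
    PP hℓ (xp ℓ f (X ^ k) * (yy ℓ f ^ i * a)) - X ^ (ℓ * k + f.natDegree * i) * PP hℓ a ∈
      degreeLT E (ℓ * k + f.natDegree * i + w) := by
  have key : ∀ i, PP hℓ (yy ℓ f ^ i * a) - X ^ (f.natDegree * i) * PP hℓ a ∈
      degreeLT E (f.natDegree * i + w) := by
    intro i
    induction i with
    | zero => simp
    | succ i ih =>
      have h1 : PP hℓ (yy ℓ f ^ i * a) ∈ degreeLT E (f.natDegree * i + w + 1) := by
        have g1 : X ^ (f.natDegree * i) * PP hℓ a ∈ degreeLT E (f.natDegree * i + w + 1) := by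
          have g := X_pow_mul_mem (n := f.natDegree * i) ha
          rwa [← add_assoc] at g
        have g2 : PP hℓ (yy ℓ f ^ i * a) - X ^ (f.natDegree * i) * PP hℓ a ∈
          degreeLT E (f.natDegree * i + w + 1) := degreeLT_mono' (Nat.le_succ _) ih
        have h2 := Submodule.add_mem _ g2 g1
        rwa [sub_add_cancel] at h2
      have h3 := PP_yy_lt hℓ hf hc h1
      have e3 : yy ℓ f * (yy ℓ f ^ i * a) = yy ℓ f ^ (i + 1) * a := by
        rw [← mul_assoc, ← pow_succ']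
      rw [e3] at h3
      have h4 := X_pow_mul_mem (n := f.natDegree) ih
      have h5 : f.natDegree * (i + 1) + w = f.natDegree + (f.natDegree * i + w) := by ring
      rw [h5]
      have h6 := Submodule.add_mem _ h3 h4
      convert h6 using 1
      rw [mul_add, mul_one, pow_add]
      ring
  rw [PP_xp_mul, map_pow, expand_X, ← pow_mul]
  have h1 := X_pow_mul_mem (n := ℓ * k) (key i)
  rw [← add_assoc] at h1
  convert h1 using 1
  rw [pow_add]
  ring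

/-- expansion of an element -/
theorem cr_expand (hℓ : ℓ ≠ 0) (a : CR ℓ f) : a = ∑ i ∈ Finset.range ℓ,
    ∑ k ∈ ((rd hℓ a).coeff i).support,
      xp ℓ f (C (((rd hℓ a).coeff i).coeff k)) * (xp ℓ f (X ^ k) * yy ℓ f ^ i) := by
  have h : (rd hℓ a).natDegree < ℓ := by
    by_contra h
    have h0 : rd hℓ a ≠ 0 := by
      intro h0
      rw [h0, natDegree_zero] at h
      omega
    have h1 := rd_big hℓ a (not_lt.1 h)
    rw [coeff_natDegree, leadingCoeff_eq_zero] at h1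
    exact h0 h1
  conv_lhs => rw [← mk_rd hℓ a, as_sum_range' _ _ h, map_sum]
  refine Finset.sum_congr rfl fun i _ => ?_
  rw [← C_mul_X_pow_eq_monomial, map_mul, map_pow]
  show xp ℓ f ((rd hℓ a).coeff i) * yy ℓ f ^ i = _
  conv_lhs => rw [as_sum_support_C_mul_X_pow ((rd hℓ a).coeff i)]
  unfold xp
  rw [map_sum, Finset.sum_mul]
  refine Finset.sum_congr rfl fun k _ => ?_
  rw [map_mul, mul_assoc]

theorem rd_mono (hℓ : ℓ ≠ 0) {i : ℕ} (hi : i < ℓ) (k : ℕ) :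
    rd hℓ (xp ℓ f (X ^ k) * yy ℓ f ^ i) = C (X ^ k) * X ^ i := by
  have h : xp ℓ f (X ^ k) * yy ℓ f ^ i =
      AdjoinRoot.mk (X ^ ℓ - C f : E[X][X]) (C (X ^ k) * X ^ i) := by
    rw [map_mul (AdjoinRoot.mk (X ^ ℓ - C f : E[X][X])),
      map_pow (AdjoinRoot.mk (X ^ ℓ - C f : E[X][X])) X i]
    rfl
  rw [h]
  apply rd_mk
  intro j hj
  rw [coeff_C_mul_X_pow, if_neg (by omega)]

/-- multiplicativity up to lower terms -/
theorem PP_mul_lt (hℓ : ℓ ≠ 0) (hf : f.Monic) (hc : ℓ.Coprime f.natDegree) {a b : CR ℓ f} {w v : ℕ}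
    (ha : PP hℓ a ∈ degreeLT E (w + 1)) (hb : PP hℓ b ∈ degreeLT E (v + 1)) :
    PP hℓ (a * b) - PP hℓ a * PP hℓ b ∈ degreeLT E (w + v) := by
  have h1 : PP hℓ (a * b) - PP hℓ a * PP hℓ b = ∑ i ∈ Finset.range ℓ,
      ∑ k ∈ ((rd hℓ a).coeff i).support, C (((rd hℓ a).coeff i).coeff k) *
      (PP hℓ (xp ℓ f (X ^ k) * (yy ℓ f ^ i * b)) - X ^ (ℓ * k + f.natDegree * i) * PP hℓ b) := by
    have e1 : PP hℓ (a * b) = ∑ i ∈ Finset.range ℓ, ∑ k ∈ ((rd hℓ a).coeff i).support,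
        C (((rd hℓ a).coeff i).coeff k) * PP hℓ (xp ℓ f (X ^ k) * (yy ℓ f ^ i * b)) := by
      conv_lhs => rw [cr_expand hℓ a, Finset.sum_mul, PP_sum]
      refine Finset.sum_congr rfl fun i _ => ?_
      rw [Finset.sum_mul, PP_sum]
      refine Finset.sum_congr rfl fun k _ => ?_
      rw [mul_assoc, PP_xp_mul, expand_C, mul_assoc]
    have e2 : PP hℓ a = ∑ i ∈ Finset.range ℓ, ∑ k ∈ ((rd hℓ a).coeff i).support,
        C (((rd hℓ a).coeff i).coeff k) * X ^ (ℓ * k + f.natDegree * i) := by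
      conv_lhs => rw [cr_expand hℓ a, PP_sum]
      refine Finset.sum_congr rfl fun i hi => ?_
      rw [PP_sum]
      refine Finset.sum_congr rfl fun k _ => ?_
      rw [PP_xp_mul, expand_C]
      unfold PP
      rw [rd_mono hℓ (Finset.mem_range.1 hi), map_mul, Psi_C, map_pow, map_pow, Psi_X, expand_X,
        ← pow_mul, ← pow_mul, ← pow_add]
    rw [e1, e2, Finset.sum_mul, ← Finset.sum_sub_distrib]
    refine Finset.sum_congr rfl fun i _ => ?_
    rw [Finset.sum_mul, ← Finset.sum_sub_distrib]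
    refine Finset.sum_congr rfl fun k _ => ?_
    ring
  rw [h1]
  refine Submodule.sum_mem _ fun i hi => Submodule.sum_mem _ fun k hk => ?_
  rw [← smul_eq_C_mul]
  apply Submodule.smul_mem
  have h2 : ℓ * k + f.natDegree * i ≤ w := by
    by_contra hcon
    have h3 := (degree_lt_iff_coeff_zero _ _).1 (mem_degreeLT.1 ha) _ (not_le.1 hcon)
    rw [PP_coeff hℓ hc a (Finset.mem_range.1 hi)] at h3
    exact (mem_support_iff.1 hk) h3
  exact degreeLT_mono' (by omega) (PP_mono_lt hℓ hf hc hb k i)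

end Pool.Agent.Y705.SQ
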